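import Pool.Agent.W251.GX.Defs

set_option autoImplicit false

namespace Pool.Agent.W154.GX

open Finset Filter
open Pool.Agent.H376R2.MR
open Pool.Agent.W78.GA
open Pool.Agent.W78.GC
open Pool.Agent.W84.FP (Gi c1 S_A0Q)
open Pool.Agent.W251.GX (mass S_A0U)

theorem hD : (0 : ℤ) ^ 2 < 4 * 1 := by norm_num

theorem bg_nn (Y : ℝ) (z : Gi) : 0 ≤ bg Y z :=
  div_nonneg (le_max_left _ _) (Nat.cast_nonneg _)

theorem prim_mul (u z : Gi) (hu : prim u) (hz : prim z) (hc : c1 (4 * nm u) z) :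
    prim (u * z) := by
  rw [prim_iff]
  intro l hl hdvd
  have hl' : Prime (l : ℤ) := Nat.prime_iff_prime_int.1 hl
  have h1 : ((l : ℕ) : Gi) ∣ ((nm u : ℕ) : Gi) * z := by
    rw [← star_mul_self' hD u, mul_assoc]
    exact Dvd.dvd.mul_left hdvd _
  rw [natCast_dvd] at h1
  simp only [QuadraticAlgebra.re_mul, QuadraticAlgebra.im_mul, QuadraticAlgebra.re_natCast,
      QuadraticAlgebra.im_natCast, mul_zero, zero_mul, add_zero] at h1
  have hlu : (l : ℤ) ∣ ((nm u : ℕ) : ℤ) := by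
    by_contra hno
    have h2 : (l : ℤ) ∣ z.re := (hl'.dvd_or_dvd h1.1).resolve_left hno
    have h3 : (l : ℤ) ∣ z.im := (hl'.dvd_or_dvd h1.2).resolve_left hno
    exact (prim_iff.1 hz) l hl (natCast_dvd.2 ⟨h2, h3⟩)
  have hlq : (l : ℤ) ∣ ((4 * nm u : ℕ) : ℤ) := by
    push_cast
    exact Dvd.dvd.mul_left hlu _
  obtain ⟨hc1, hc2, -⟩ := hc
  have hzim : (l : ℤ) ∣ z.im := hlq.trans hc1
  have hzre : ¬ (l : ℤ) ∣ z.re := by
    intro h
    obtain ⟨a, b, hab⟩ := hc2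
    have h4 : (l : ℤ) ∣ 1 := by
      rw [← hab]
      exact dvd_add (Dvd.dvd.mul_left h _) (Dvd.dvd.mul_left hlq _)
    exact hl'.not_unit (isUnit_of_dvd_one h4)
  obtain ⟨h5, h6⟩ := natCast_dvd.1 hdvd
  have hre : (u * z).re = u.re * z.re - u.im * z.im := by
    simp only [QuadraticAlgebra.re_mul]
    ring
  have him : (u * z).im = u.re * z.im + u.im * z.re := by
    simp only [QuadraticAlgebra.im_mul]
    ring
  rw [hre] at h5
  rw [him] at h6
  have h7 : (l : ℤ) ∣ u.re * z.re := by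
    have := dvd_add h5 (Dvd.dvd.mul_left hzim u.im)
    simpa using this
  have h8 : (l : ℤ) ∣ u.im * z.re := by
    have := dvd_sub h6 (Dvd.dvd.mul_left hzim u.re)
    simpa using this
  exact (prim_iff.1 hu) l hl (natCast_dvd.2
    ⟨(hl'.dvd_or_dvd h7).resolve_right hzre, (hl'.dvd_or_dvd h8).resolve_right hzre⟩)

theorem a0u (h : S_A0Q) : S_A0U := by
  intro u hu
  have hn : 1 ≤ nm u := (one_le_nm hD).2 (prim_ne_zero hu)
  obtain ⟨c₀, hc₀, Y₀, hY⟩ := h (4 * nm u) (by omega) (Dvd.intro _ rfl)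
  refine ⟨c₀, hc₀, Y₀, fun Y hYY => (hY Y hYY).trans ?_⟩
  unfold cball mass
  rw [sum_filter]
  refine sum_le_sum (fun z hz => ?_)
  have hzp : prim z := by
    unfold pball at hz
    exact (mem_filter.1 hz).2
  by_cases h1 : c1 (4 * nm u) z
  · have h2 : prim (u * z) := prim_mul u z hu hzp h1
    rw [if_pos h1, if_pos h2]
  · rw [if_neg h1]
    split_ifs
    · exact bg_nn Y z
    · exact le_rfl

end Pool.Agent.W154.GX
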